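import Pool.Agent.H22.GForm2

open Pool.Agent.H22.GForm

theorem Pool.Agent.Results.MP_8f9e48_lc.Unary.result (G : Gr) (hG : WF G) (hu : G.T.card = 1) :
    UnaryComplete (Fam G) :=
  main hG hu
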